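import Pool.Agent.H90.STE.Stmts

/-!
# The doubling of a slice (random time)
-/

set_option autoImplicit false

namespace Pool.STE

/-- **DT**. -/
theorem dt (hCA : CAStmt) (hCC : CCStmt) (hCD : CDStmt) : DTStmt := by
  intro m J F k r hk
  have h1 := hCA m J F k r hk
  have h3 := hCC m J F k r hk
  have h4 := hCD m J F k r hk
  unfold hT tT iT
  linarith

end Pool.STE
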