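import Pool.Agent.H90.STE.Stmts2

/-!
# Sticky Kakeya sets have full Hausdorff dimension, without the chart
-/

set_option autoImplicit false

namespace Pool.STE.SF

open MeasureTheory Set Metric
open scoped RealInnerProductSpace ENNReal NNReal
open Pool.Agent.H53.Kak (E tube)
open Pool.Agent.H55.HDim

variable {d : ℕ}

/-! ### The chart -/

lemma norm_vdir_sub (w w' : Fin d → ℝ) : ‖vdir w - vdir w'‖ ≤ ((d : ℝ) + 1) * ‖w - w'‖ := by
  rw [EuclideanSpace.norm_eq, Real.sqrt_le_left (by positivity)]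
  have h0 : (vdir w - vdir w') 0 = 0 := by
    rw [PiLp.sub_apply, vdir_zero, vdir_zero, sub_self]
  rw [Fin.sum_univ_succ, h0, norm_zero, zero_pow two_ne_zero, zero_add]
  calc ∑ i : Fin d, ‖(vdir w - vdir w') i.succ‖ ^ 2 ≤ ∑ _i : Fin d, ‖w - w'‖ ^ 2 := by
        refine Finset.sum_le_sum fun i _ => ?_
        have h1 : (vdir w - vdir w') i.succ = (w - w') i := by
          rw [PiLp.sub_apply, vdir_succ, vdir_succ]; rfl
        rw [h1]
        exact pow_le_pow_left₀ (norm_nonneg _) (norm_le_pi_norm (w - w') i) 2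
    _ = (d : ℝ) * ‖w - w'‖ ^ 2 := by simp
    _ ≤ (((d : ℝ) + 1) * ‖w - w'‖) ^ 2 := by
        rw [mul_pow]
        apply mul_le_mul_of_nonneg_right _ (sq_nonneg _)
        nlinarith [Nat.cast_nonneg (α := ℝ) d]

lemma norm_edir_sub (w w' : Fin d → ℝ) :
    ‖edir w - edir w'‖ ≤ (2 * ((d : ℝ) + 1)) * ‖w - w'‖ := by
  have h1 := one_le_norm_vdir w
  have h1' := one_le_norm_vdir w'
  have h2 := norm_vdir_sub w w'
  have hv0 : ‖vdir w‖ ≠ 0 := by positivity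
  have hv0' : ‖vdir w'‖ ≠ 0 := by positivity
  have e1 : edir w - edir w' = ‖vdir w‖⁻¹ • (vdir w - vdir w') +
      (‖vdir w‖⁻¹ * (‖vdir w'‖ - ‖vdir w‖)) • edir w' := by
    have e2 : vdir w' = ‖vdir w'‖ • edir w' := by
      rw [edir, smul_smul, mul_inv_cancel₀ hv0', one_smul]
    have e3 : ‖vdir w‖⁻¹ • vdir w' = (‖vdir w‖⁻¹ * ‖vdir w'‖) • edir w' := by
      rw [mul_smul, ← e2]
    rw [smul_sub, e3, mul_sub, inv_mul_cancel₀ hv0, sub_smul, one_smul]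
    rw [show edir w = ‖vdir w‖⁻¹ • vdir w from rfl]
    abel
  rw [e1]
  have h3 : |‖vdir w'‖ - ‖vdir w‖| ≤ ‖vdir w - vdir w'‖ := by
    rw [norm_sub_rev]
    exact abs_norm_sub_norm_le _ _
  have h4 : ‖vdir w‖⁻¹ ≤ 1 := inv_le_one_of_one_le₀ h1
  have h5 : 0 ≤ ‖vdir w‖⁻¹ := by positivity
  calc ‖‖vdir w‖⁻¹ • (vdir w - vdir w') + (‖vdir w‖⁻¹ * (‖vdir w'‖ - ‖vdir w‖)) • edir w'‖
      ≤ ‖‖vdir w‖⁻¹ • (vdir w - vdir w')‖ +
        ‖(‖vdir w‖⁻¹ * (‖vdir w'‖ - ‖vdir w‖)) • edir w'‖ := norm_add_le _ _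
    _ = ‖vdir w‖⁻¹ * ‖vdir w - vdir w'‖ + ‖vdir w‖⁻¹ * |‖vdir w'‖ - ‖vdir w‖| := by
        rw [norm_smul, norm_smul, norm_edir, mul_one, norm_mul, Real.norm_eq_abs,
          Real.norm_eq_abs, abs_of_nonneg h5]
    _ ≤ 1 * ‖vdir w - vdir w'‖ + 1 * ‖vdir w - vdir w'‖ := by
        apply add_le_add
        · exact mul_le_mul_of_nonneg_right h4 (norm_nonneg _)
        · exact mul_le_mul h4 h3 (abs_nonneg _) zero_le_one
    _ ≤ (2 * ((d : ℝ) + 1)) * ‖w - w'‖ := by linarith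

lemma lip_edir : LipschitzWith (⟨2 * ((d : ℝ) + 1), by positivity⟩ : ℝ≥0)
    (edir : (Fin d → ℝ) → E d) := by
  refine LipschitzWith.of_dist_le_mul fun w w' => ?_
  rw [dist_eq_norm, dist_eq_norm]
  exact norm_edir_sub w w'

lemma edir_image_null (Ω : Set (Fin d → ℝ)) (h : volume Ω = 0) :
    μH[(d : ℝ)] ((edir : (Fin d → ℝ) → E d) '' Ω) = 0 := by
  have h1 := lip_edir.hausdorffMeasure_image_le (d := (d : ℝ)) (by positivity) Ω
  have h2 : (μH[(d : ℝ)] : Measure (Fin d → ℝ)) = volume := by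
    have := hausdorffMeasure_pi_real (ι := Fin d)
    rw [Fintype.card_fin] at this
    exact this
  rw [h2, h, mul_zero] at h1
  exact le_antisymm h1 zero_le

lemma edir_chart (e : E d) (he : ‖e‖ = 1) (h0 : 0 < e 0) (h : ∀ i, 0 ≤ e i ∧ e i ≤ e 0) :
    (∀ i : Fin d, 0 ≤ e i.succ / e 0 ∧ e i.succ / e 0 ≤ 1) ∧
      edir (fun i : Fin d => e i.succ / e 0) = e := by
  refine ⟨fun i => ⟨div_nonneg (h i.succ).1 h0.le, (div_le_one h0).2 (h i.succ).2⟩, ?_⟩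
  have e1 : vdir (fun i : Fin d => e i.succ / e 0) = (e 0)⁻¹ • e := by
    ext i
    refine Fin.cases ?_ (fun i => ?_) i
    · rw [vdir_zero, PiLp.smul_apply, smul_eq_mul, inv_mul_cancel₀ h0.ne']
    · rw [vdir_succ, PiLp.smul_apply, smul_eq_mul]
      ring
  have e2 : ‖vdir (fun i : Fin d => e i.succ / e 0)‖ = (e 0)⁻¹ := by
    rw [e1, norm_smul, he, mul_one, norm_inv, Real.norm_eq_abs, abs_of_pos h0]
  rw [edir, e2, inv_inv, e1, smul_smul, mul_inv_cancel₀ h0.ne', one_smul]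

/-! ### Permutations and changes of sign -/

/-- the sign -/
noncomputable def sg (b : Bool) : ℝ := if b then 1 else -1

lemma sg_sq (b : Bool) : sg b ^ 2 = 1 := by
  unfold sg; cases b <;> simp

/-- a permutation and changes of sign of the coordinates -/
noncomputable def T (k : Fin (d + 1)) (τ : Fin (d + 1) → Bool) : E d →ₗ[ℝ] E d where
  toFun z := WithLp.toLp 2 fun i => sg (τ i) * z (Equiv.swap 0 k i)
  map_add' z z' := by
    ext i
    simp only [PiLp.add_apply]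
    ring
  map_smul' c z := by
    ext i
    simp only [PiLp.smul_apply, smul_eq_mul, RingHom.id_apply]
    ring

lemma T_apply (k : Fin (d + 1)) (τ : Fin (d + 1) → Bool) (z : E d) (i : Fin (d + 1)) :
    T k τ z i = sg (τ i) * z (Equiv.swap 0 k i) := rfl

lemma norm_T (k : Fin (d + 1)) (τ : Fin (d + 1) → Bool) (z : E d) : ‖T k τ z‖ = ‖z‖ := by
  rw [EuclideanSpace.norm_eq, EuclideanSpace.norm_eq]
  congr 1
  have h1 : ∀ i, ‖T k τ z i‖ ^ 2 = ‖z (Equiv.swap 0 k i)‖ ^ 2 := by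
    intro i
    rw [T_apply, norm_mul, mul_pow, Real.norm_eq_abs (sg (τ i)), sq_abs, sg_sq, one_mul]
  simp only [h1]
  exact Equiv.sum_comp (Equiv.swap 0 k) fun i => ‖z i‖ ^ 2

lemma isom_T (k : Fin (d + 1)) (τ : Fin (d + 1) → Bool) : Isometry (T k τ : E d → E d) := by
  refine Isometry.of_dist_eq fun z z' => ?_
  rw [dist_eq_norm, dist_eq_norm, ← map_sub, norm_T]

lemma exists_T (e : E d) (he : ‖e‖ = 1) : ∃ (k : Fin (d + 1)) (τ : Fin (d + 1) → Bool),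
    0 < T k τ e 0 ∧ ∀ i, 0 ≤ T k τ e i ∧ T k τ e i ≤ T k τ e 0 := by
  obtain ⟨k, hk⟩ := Finite.exists_max fun i : Fin (d + 1) => |e i|
  have habs : ∀ x : ℝ, sg (decide (0 ≤ x)) * x = |x| := by
    intro x
    by_cases hx : 0 ≤ x
    · simp [sg, hx, abs_of_nonneg hx]
    · simp [sg, hx, abs_of_neg (not_le.1 hx)]
  have h1 : ∀ i, T k (fun i => decide (0 ≤ e (Equiv.swap 0 k i))) e i =
      |e (Equiv.swap 0 k i)| := fun i => by rw [T_apply]; exact habs _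
  refine ⟨k, fun i => decide (0 ≤ e (Equiv.swap 0 k i)), ?_, fun i => ?_⟩
  · rw [h1, Equiv.swap_apply_left]
    by_contra hcon
    push Not at hcon
    have h2 : e = 0 := by
      ext i
      have h3 := hk i
      have h4 : |e i| = 0 := le_antisymm (h3.trans hcon) (abs_nonneg _)
      exact abs_eq_zero.1 h4
    rw [h2, norm_zero] at he
    exact zero_ne_one he
  · rw [h1, h1, Equiv.swap_apply_left]
    exact ⟨abs_nonneg _, hk _⟩

/-! ### Packing dimension of an image -/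

lemma box_image {Λ Λ' : Set (E d × E d)} {s C : ℝ} (k : Fin (d + 1)) (τ : Fin (d + 1) → Bool)
    (a : ℝ) (h : Box Λ s C) (hsub : Λ' ⊆ Λ) : ∃ C',
    Box ((fun l : E d × E d => (T k τ (l.1 + a • l.2), T k τ l.2)) '' Λ') s C' := by
  classical
  refine ⟨C * (1 + |a|) ^ s, fun ρ h0 h1 => ?_⟩
  have hL : 1 ≤ 1 + |a| := by linarith [abs_nonneg a]
  have hL0 : 0 < 1 + |a| := by linarith
  obtain ⟨F, hF, hF2⟩ := h (ρ / (1 + |a|)) (by positivity)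
    ((div_le_self h0.le hL).trans_lt h1)
  refine ⟨F.image fun l : E d × E d => (T k τ (l.1 + a • l.2), T k τ l.2), ?_, ?_⟩
  · have h2 : ((F.image fun l : E d × E d => (T k τ (l.1 + a • l.2), T k τ l.2)).card : ℝ) ≤
        F.card := by exact_mod_cast Finset.card_image_le
    refine h2.trans (hF.trans (le_of_eq ?_))
    rw [Real.div_rpow h0.le hL0.le, Real.rpow_neg hL0.le]
    field_simp
  · rintro _ ⟨l, hl, rfl⟩
    obtain ⟨f, hf, h3, h4⟩ := hF2 l (hsub hl)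
    refine ⟨_, Finset.mem_image_of_mem _ hf, ?_, ?_⟩
    · show ‖T k τ (l.1 + a • l.2) - T k τ (f.1 + a • f.2)‖ ≤ ρ
      rw [← map_sub, norm_T]
      have e1 : l.1 + a • l.2 - (f.1 + a • f.2) = (l.1 - f.1) + a • (l.2 - f.2) := by
        rw [smul_sub]; abel
      rw [e1]
      calc ‖(l.1 - f.1) + a • (l.2 - f.2)‖ ≤ ‖l.1 - f.1‖ + ‖a • (l.2 - f.2)‖ := norm_add_le _ _
        _ = ‖l.1 - f.1‖ + |a| * ‖l.2 - f.2‖ := by rw [norm_smul, Real.norm_eq_abs]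
        _ ≤ ρ / (1 + |a|) + |a| * (ρ / (1 + |a|)) :=
            add_le_add h3 (mul_le_mul_of_nonneg_left h4 (abs_nonneg a))
        _ = ρ := by field_simp
    · show ‖T k τ l.2 - T k τ f.2‖ ≤ ρ
      rw [← map_sub, norm_T]
      exact h4.trans (div_le_self h0.le hL)

lemma pack_image {Λ Λ' : Set (E d × E d)} {s : ℝ} (k : Fin (d + 1)) (τ : Fin (d + 1) → Bool)
    (a : ℝ) (h : Pack Λ s) (hsub : Λ' ⊆ Λ) :
    Pack ((fun l : E d × E d => (T k τ (l.1 + a • l.2), T k τ l.2)) '' Λ') s := by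
  intro s' hs'
  obtain ⟨Λj, h1, h2⟩ := h s' hs'
  refine ⟨fun j => (fun l : E d × E d => (T k τ (l.1 + a • l.2), T k τ l.2)) '' (Λ' ∩ Λj j),
    ?_, fun j => ?_⟩
  · rintro _ ⟨l, hl, rfl⟩
    obtain ⟨j, hj⟩ := mem_iUnion.1 (h1 (hsub hl))
    exact mem_iUnion.2 ⟨j, mem_image_of_mem _ ⟨hl, hj⟩⟩
  · obtain ⟨C, hC⟩ := h2 j
    exact box_image k τ a hC inter_subset_right

/-! ### Translation of the time -/

lemma exists_shift (K : Set (E d)) (l : E d × E d)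
    (h : 0 < volume {t : ℝ | l.1 + t • l.2 ∈ K}) :
    ∃ s : ℤ, 0 < volume {t : ℝ | 1 / 4 ≤ t ∧ t ≤ 3 / 4 ∧
      l.1 + ((s : ℝ) / 4) • l.2 + t • l.2 ∈ K} := by
  by_contra hcon
  push Not at hcon
  have h0 : ∀ s : ℤ, volume {t : ℝ | 1 / 4 ≤ t - (s : ℝ) / 4 ∧ t - (s : ℝ) / 4 ≤ 3 / 4 ∧
      l.1 + t • l.2 ∈ K} = 0 := by
    intro s
    have h1 := le_antisymm (hcon s) zero_le
    have h2 := measure_preimage_add_right (volume : Measure ℝ) (-((s : ℝ) / 4))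
      {t : ℝ | 1 / 4 ≤ t ∧ t ≤ 3 / 4 ∧ l.1 + ((s : ℝ) / 4) • l.2 + t • l.2 ∈ K}
    rw [h1] at h2
    rw [← h2]
    congr 1
    ext t
    simp only [mem_ofPred_eq, mem_preimage]
    have e1 : l.1 + ((s : ℝ) / 4) • l.2 + (t + -((s : ℝ) / 4)) • l.2 = l.1 + t • l.2 := by
      rw [add_assoc, ← add_smul]
      congr 2
      ring
    rw [e1, sub_eq_add_neg]
  have h3 : {t : ℝ | l.1 + t • l.2 ∈ K} ⊆ ⋃ s : ℤ, {t : ℝ | 1 / 4 ≤ t - (s : ℝ) / 4 ∧
      t - (s : ℝ) / 4 ≤ 3 / 4 ∧ l.1 + t • l.2 ∈ K} := by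
    intro t ht
    rw [mem_iUnion]
    refine ⟨⌊4 * t⌋ - 1, ?_, ?_, ht⟩
    · have := Int.floor_le (4 * t)
      push_cast
      linarith
    · have := Int.lt_floor_add_one (4 * t)
      push_cast
      linarith
  have h4 := measure_mono_null h3 (measure_iUnion_null h0)
  exact h.ne' h4

end Pool.STE.SF

namespace Pool.STE

open MeasureTheory Set Metric
open scoped RealInnerProductSpace ENNReal NNReal
open Pool.Agent.H53.Kak (E tube)
open Pool.Agent.H55.HDim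

theorem sf2 (hSC2 : SC2Stmt) : SF2Stmt := by
  classical
  intro d ε hd hε
  obtain ⟨η, hη, hSC⟩ := hSC2 d ε hd hε
  refine ⟨η, hη, fun K Λ hpack hline hdir => ?_⟩
  -- the pieces
  obtain ⟨Q, hQ⟩ : ∃ Q : Fin (d + 1) × (Fin (d + 1) → Bool) × ℤ → Set (E d × E d),
      Q = fun p => {l ∈ Λ | (0 < SF.T p.1 p.2.1 l.2 0 ∧
        ∀ i, 0 ≤ SF.T p.1 p.2.1 l.2 i ∧ SF.T p.1 p.2.1 l.2 i ≤ SF.T p.1 p.2.1 l.2 0) ∧
        0 < volume {t : ℝ | 1 / 4 ≤ t ∧ t ≤ 3 / 4 ∧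
          l.1 + ((p.2.2 : ℝ) / 4) • l.2 + t • l.2 ∈ K}} := ⟨_, rfl⟩
  have hQm : ∀ p l, l ∈ Q p ↔ l ∈ Λ ∧ (0 < SF.T p.1 p.2.1 l.2 0 ∧
        ∀ i, 0 ≤ SF.T p.1 p.2.1 l.2 i ∧ SF.T p.1 p.2.1 l.2 i ≤ SF.T p.1 p.2.1 l.2 0) ∧
        0 < volume {t : ℝ | 1 / 4 ≤ t ∧ t ≤ 3 / 4 ∧
          l.1 + ((p.2.2 : ℝ) / 4) • l.2 + t • l.2 ∈ K} := by
    intro p l; rw [hQ]; rfl
  have hcov : Prod.snd '' Λ ⊆ ⋃ p, Prod.snd '' (Q p) := by
    rintro _ ⟨l, hl, rfl⟩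
    obtain ⟨h1, h2⟩ := hline l hl
    obtain ⟨k, τ, hkτ⟩ := SF.exists_T l.2 h1
    obtain ⟨s, hs⟩ := SF.exists_shift K l h2
    exact mem_iUnion.2 ⟨(k, τ, s), mem_image_of_mem _ ((hQm _ _).2 ⟨hl, hkτ, hs⟩)⟩
  obtain ⟨⟨k, τ, s⟩, hp⟩ : ∃ p, 0 < μH[(d : ℝ)] (Prod.snd '' (Q p)) := by
    by_contra hcon
    push Not at hcon
    have h1 : μH[(d : ℝ)] (⋃ p, Prod.snd '' (Q p)) = 0 :=
      measure_iUnion_null fun p => le_antisymm (hcon p) zero_le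
    exact hdir.ne' (measure_mono_null hcov h1)
  obtain ⟨Φ, hΦ⟩ : ∃ Φ : E d × E d → E d × E d, Φ = fun l =>
      (SF.T k τ (l.1 + ((s : ℝ) / 4) • l.2), SF.T k τ l.2) := ⟨_, rfl⟩
  have hdim : dimH (SF.T k τ '' K) = dimH K := (SF.isom_T k τ).dimH_image K
  rw [← hdim]
  refine hSC (SF.T k τ '' K) (Φ '' (Q (k, τ, s))) ?_ ?_ ?_
  · rw [hΦ]
    exact SF.pack_image k τ ((s : ℝ) / 4) hpack fun l hl => ((hQm _ _).1 hl).1
  · rintro _ ⟨l, hl, rfl⟩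
    obtain ⟨h1, h2, h3⟩ := (hQm _ _).1 hl
    refine h3.trans_le (measure_mono ?_)
    rintro t ⟨h4, h5, h6⟩
    refine ⟨h4, h5, ?_⟩
    rw [hΦ]
    show SF.T k τ (l.1 + ((s : ℝ) / 4) • l.2) + t • SF.T k τ l.2 ∈ SF.T k τ '' K
    rw [← map_smul, ← map_add]
    exact mem_image_of_mem _ h6
  · by_contra hcon
    have h0 : volume {w : Fin d → ℝ | (∀ i, 0 ≤ w i ∧ w i ≤ 1) ∧
        ∃ x, (x, edir w) ∈ Φ '' (Q (k, τ, s))} = 0 := by
      by_contra hne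
      exact hcon (pos_iff_ne_zero.2 hne)
    have h1 := SF.edir_image_null _ h0
    have h2 : (SF.T k τ : E d → E d) '' (Prod.snd '' (Q (k, τ, s))) ⊆
        (edir : (Fin d → ℝ) → E d) '' {w : Fin d → ℝ | (∀ i, 0 ≤ w i ∧ w i ≤ 1) ∧
        ∃ x, (x, edir w) ∈ Φ '' (Q (k, τ, s))} := by
      rintro _ ⟨_, ⟨l, hl, rfl⟩, rfl⟩
      obtain ⟨h3, h4, h5⟩ := (hQm _ _).1 hl
      have hn : ‖SF.T k τ l.2‖ = 1 := by rw [SF.norm_T]; exact (hline l h3).1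
      obtain ⟨h6, h7⟩ := SF.edir_chart (SF.T k τ l.2) hn h4.1 h4.2
      refine ⟨_, ⟨h6, SF.T k τ (l.1 + ((s : ℝ) / 4) • l.2), ?_⟩, h7⟩
      rw [h7]
      exact ⟨l, hl, by rw [hΦ]⟩
    have h3 := measure_mono_null h2 h1
    rw [(SF.isom_T k τ).hausdorffMeasure_image (Or.inl (by positivity))] at h3
    exact hp.ne' h3

theorem pack_mono {d : ℕ} {Λ : Set (E d × E d)} {s s' : ℝ} (h : Pack Λ s) (hs : s ≤ s') :
    Pack Λ s' := fun r hr => h r (hs.trans_lt hr)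

theorem sf_of_sf2 (hSF2 : SF2Stmt) : SFStmt := by
  intro d K Λ hd hpack hline hdir
  apply le_antisymm
  · have h1 : dimH K ≤ dimH (univ : Set (E d)) := dimH_mono (subset_univ K)
    rw [Real.dimH_univ_eq_finrank] at h1
    have h2 : Module.finrank ℝ (E d) = d + 1 := by
      rw [finrank_euclideanSpace, Fintype.card_fin]
    rw [h2] at h1
    exact_mod_cast h1
  · refine ENNReal.le_of_forall_pos_le_add ?_
    intro ε hε _
    obtain ⟨η, hη, h⟩ := hSF2 d (ε : ℝ) hd hε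
    have h1 := h K Λ (pack_mono hpack (by linarith)) hline hdir
    have h2 : ((d : ℝ≥0∞) + 1) ≤ ENNReal.ofReal ((d : ℝ) + 1 - ε) + ε := by
      have h3 : ((d : ℝ≥0∞) + 1) = ENNReal.ofReal ((d : ℝ) + 1) := by
        rw [ENNReal.ofReal_add (by positivity) zero_le_one, ENNReal.ofReal_natCast,
          ENNReal.ofReal_one]
      have h4 : (ε : ℝ≥0∞) = ENNReal.ofReal (ε : ℝ) := (ENNReal.ofReal_coe_nnreal).symm
      rw [h3, h4]
      calc ENNReal.ofReal ((d : ℝ) + 1) = ENNReal.ofReal (((d : ℝ) + 1 - ε) + ε) := by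
            congr 1; ring
        _ ≤ _ := ENNReal.ofReal_add_le
    exact h2.trans (add_le_add_left h1 _)

theorem sf (hSC2 : SC2Stmt) : SFStmt := sf_of_sf2 (sf2 hSC2)

end Pool.STE
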